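import Pool.Agent.Helper74.DI.St

/-!
# Project DI (MP_26f0da_lc), module CLS: the classification
-/

set_option autoImplicit false

namespace Pool.Agent.Helper16.DI

open Pool.Agent.Helper74 Pool.Agent.Helper74.DI

section

variable {G : Type} {R : G → G → Prop}

/-- Case (2). -/
theorem case2 (h1 : ¬ T1 R) (h3 : ¬ T3 R) {x x' u y y' z : G}
    (hxy' : R x y') (hxy : ¬ R x y) (hx'y : ¬ R x' y) (hx'y' : ¬ R x' y') (hx'z : R x' z)
    (huy : R u y) (hxz : R x z) (huy' : ¬ R u y') : False := by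
  by_cases huz : R u z
  · exact h3 ⟨x, x', u, y, y', z, hxy', hxz, hx'z, huy, huz, hxy, hx'y, hx'y', huy'⟩
  · exact h1 ⟨x', x, u, z, y', y, hx'z, hxz, hxy', huy, hx'y', hx'y, hxy, huz, huy'⟩

/-- Part (A). -/
theorem partA (hs : ∀ x y, R x y → R y x) (h1 : ¬ T1 R) (h2 : ¬ T2 R) (h3 : ¬ T3 R)
    {x x' u y y' z : G}
    (hxy' : R x y') (hxy : ¬ R x y) (hx'y : ¬ R x' y) (hx'y' : ¬ R x' y') (hx'z : R x' z)
    (huy : R u y) : ¬ R x z ∧ ¬ R u y' ∧ ¬ R u z := by
  by_cases hxz : R x z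
  · exfalso
    by_cases huy' : R u y'
    · exact h2 ⟨x, x', u, y, y', z, hxy', hxz, hx'z, huy, huy', hxy, hx'y, hx'y'⟩
    · exact case2 h1 h3 hxy' hxy hx'y hx'y' hx'z huy hxz huy'
  · by_cases huy' : R u y'
    · exfalso
      exact case2 (x := y') (x' := y) (u := z) (y := x') (y' := x) (z := u) h1 h3
        (hs _ _ hxy') (fun h => hx'y' (hs _ _ h)) (fun h => hx'y (hs _ _ h))
        (fun h => hxy (hs _ _ h)) (hs _ _ huy) (hs _ _ hx'z) (hs _ _ huy')
        (fun h => hxz (hs _ _ h))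
    · refine ⟨hxz, huy', fun huz => ?_⟩
      exact h1 ⟨x', u, x, z, y, y', hx'z, huz, huy, hxy', hx'y, hx'y', huy', hxz, hxy⟩

/-- Part (B). -/
theorem partB (hs : ∀ x y, R x y → R y x) (h1 : ¬ T1 R) (h2 : ¬ T2 R) (h3 : ¬ T3 R)
    {a b u y y' z : G}
    (hay' : R a y') (hby' : ¬ R b y') (hay : ¬ R a y) (hby : ¬ R b y) (huy : R u y)
    (hbz : R b z) (haz : R a z) : False :=
  (partA hs h1 h2 h3 hay' hay hby hby' hbz huy).1 haz

/-- Part (C). -/
theorem partC (hs : ∀ x y, R x y → R y x) (h1 : ¬ T1 R) (h2 : ¬ T2 R) (h3 : ¬ T3 R)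
    {x1 x2 y1 y2 : G} (h11 : R x1 y1) (h21 : R x2 y1) (h22 : R x2 y2) (h12 : ¬ R x1 y2)
    {u y : G} (huy : R u y) : R x1 y ∨ R x2 y := by
  by_contra h
  rw [not_or] at h
  exact partB hs h1 h2 h3 h22 h12 h.2 h.1 huy h11 h21

end

/-- The classification. -/
theorem hCLS : StCLS := by
  intro G R hs hT hO
  by_contra hn
  rw [not_or, not_or] at hn
  obtain ⟨h1, h2, h3⟩ := hn
  obtain ⟨x1, x2, y1, y2, h11, h21, h22, h12⟩ := hT
  obtain ⟨x, x', y, y', ⟨z, hx'z⟩, ⟨u, huy⟩, hxy', hxy, hx'y, hx'y'⟩ := hO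
  obtain ⟨hxz, huy', huz⟩ := partA hs h1 h2 h3 hxy' hxy hx'y hx'y' hx'z huy
  -- every letter with a partner is related to `y1` or to `y2`
  have hC : ∀ r s : G, R r s → R r y1 ∨ R r y2 := by
    intro r s hrs
    have := partC hs h1 h2 h3 (x1 := y2) (x2 := y1) (y1 := x2) (y2 := x1) (hs _ _ h22)
      (hs _ _ h21) (hs _ _ h11) (fun h => h12 (hs _ _ h)) (hs _ _ hrs)
    rcases this with h | h
    · exact Or.inr (hs _ _ h)
    · exact Or.inl (hs _ _ h)
  -- no two of the three letters are related to the same letter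
  have k1 : ∀ w, R x w → R x' w → False := fun w a b =>
    partB hs h1 h2 h3 hxy' hx'y' hxy hx'y huy b a
  have k2 : ∀ w, R x w → R u w → False := fun w a b =>
    partB hs h1 h2 h3 hxy' huy' hxz huz hx'z b a
  have k3 : ∀ w, R x' w → R u w → False := fun w a b =>
    partB hs h1 h2 h3 hx'z huz hx'y' huy' hxy' b a
  rcases hC x y' hxy' with a | a <;> rcases hC x' z hx'z with b | b <;>
    rcases hC u y huy with c | c
  · exact k1 _ a b
  · exact k1 _ a b
  · exact k2 _ a c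
  · exact k3 _ b c
  · exact k3 _ b c
  · exact k2 _ a c
  · exact k1 _ a b
  · exact k1 _ a b

end Pool.Agent.Helper16.DI
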